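import Pool.Agent.H668Z.SC.Side

set_option autoImplicit false
set_option linter.unusedSectionVars false
set_option linter.unusedVariables false

namespace Pool.Agent.H522Z.Glue

open Pool.Agent.H668Z.SC GS Monoid.Coprod

variable {G V : Type} [Group G] [MulAction G V]

inductive Gen (p q : V) (g : G) : GZ G × V → GZ G × V → Prop
  | act (γ : GZ G) (h : G) (v : V) : Gen p q g (γ * inl h, v) (γ, h • v)
  | atP (γ : GZ G) : Gen p q g (γ, p) (γ * tt G, p)
  | atQ (γ : GZ G) : Gen p q g (γ, g • q) (γ * tt G, q)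

def W (p q : V) (g : G) : Type := Quot (Gen p q g)

variable (p q : V) (g : G)

def mk (γ : GZ G) (v : V) : W p q g := Quot.mk _ (γ, v)

def io (v : V) : W p q g := mk p q g 1 v

variable {p q g}

lemma mk_surj (y : W p q g) : ∃ γ v, y = mk p q g γ v := by
  induction y using Quot.ind with
  | mk x => exact ⟨x.1, x.2, rfl⟩

lemma mk_act (γ : GZ G) (h : G) (v : V) : mk p q g (γ * inl h) v = mk p q g γ (h • v) :=
  Quot.sound (Gen.act γ h v)

lemma mk_P (γ : GZ G) : mk p q g γ p = mk p q g (γ * tt G) p := Quot.sound (Gen.atP γ)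

lemma mk_Q (γ : GZ G) : mk p q g γ (g • q) = mk p q g (γ * tt G) q := Quot.sound (Gen.atQ γ)

lemma mk_inl (h : G) (v : V) : mk p q g (inl h) v = io p q g (h • v) := by
  rw [io, ← mk_act, one_mul]

lemma inv_of_gen {β : Sort*} (P : GZ G → V → β)
    (h1 : ∀ γ h v, P (γ * inl h) v = P γ (h • v))
    (h2 : ∀ γ, P γ p = P (γ * tt G) p) (h3 : ∀ γ, P γ (g • q) = P (γ * tt G) q)
    {γ γ' : GZ G} {v v' : V} (h : mk p q g γ v = mk p q g γ' v') : P γ v = P γ' v' := by
  have hw : ∀ a b, Gen p q g a b → P a.1 a.2 = P b.1 b.2 := by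
    intro a b hab
    cases hab with
    | act γ h v => exact h1 γ h v
    | atP γ => exact h2 γ
    | atQ γ => exact h3 γ
  exact congrArg (Quot.lift (fun x : GZ G × V => P x.1 x.2) hw) h

def act (τ : GZ G) : W p q g → W p q g :=
  Quot.map (fun x => (τ * x.1, x.2)) (by
    intro a b hab
    cases hab with
    | act γ h v => simp only [← mul_assoc]; exact Gen.act _ h v
    | atP γ => simp only [← mul_assoc]; exact Gen.atP _
    | atQ γ => simp only [← mul_assoc]; exact Gen.atQ _)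

lemma act_mk (τ γ : GZ G) (v : V) : act τ (mk p q g γ v) = mk p q g (τ * γ) v := rfl

instance : MulAction (GZ G) (W p q g) where
  smul := act
  one_smul y := by
    obtain ⟨γ, v, rfl⟩ := mk_surj y
    show act 1 _ = _
    rw [act_mk, one_mul]
  mul_smul a b y := by
    obtain ⟨γ, v, rfl⟩ := mk_surj y
    show act _ _ = act _ (act _ _)
    rw [act_mk, act_mk, act_mk, mul_assoc]

lemma smul_mk (τ γ : GZ G) (v : V) : τ • mk p q g γ v = mk p q g (τ * γ) v := rfl

lemma smul_io (τ : GZ G) (v : V) : τ • io p q g v = mk p q g τ v := by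
  rw [io, smul_mk, mul_one]

lemma io_smul (h : G) (v : V) : io p q g (h • v) = (inl h : GZ G) • io p q g v := by
  rw [smul_io, mk_inl]

lemma orb {γ γ' : GZ G} {v v' : V} (h : mk p q g γ v = mk p q g γ' v') : ∃ k : G, v' = k • v := by
  have := inv_of_gen (p := p) (q := q) (g := g) (fun _ w => ∃ k : G, w = k • v) ?_ ?_ ?_ h
  · rw [← this]; exact ⟨1, (one_smul _ _).symm⟩
  · intro γ h w
    apply propext
    constructor
    · rintro ⟨k, rfl⟩; exact ⟨h * k, (mul_smul _ _ _).symm⟩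
    · rintro ⟨k, hk⟩; exact ⟨h⁻¹ * k, by rw [mul_smul, ← hk, inv_smul_smul]⟩
  · intro γ; rfl
  · intro γ
    apply propext
    constructor
    · rintro ⟨k, hk⟩; exact ⟨g⁻¹ * k, by rw [mul_smul, ← hk, inv_smul_smul]⟩
    · rintro ⟨k, hk⟩; exact ⟨g * k, by rw [mul_smul, ← hk]⟩

variable (p q g)

def eP (s : G × Bool) : V := s.1 • p

def eQ (s : G × Bool) : V := if s.2 then (s.1 * g) • q else s.1 • q

/-- `v` is an end of the edge `s` -/
def End (s : G × Bool) (v : V) : Prop := v = eP p s ∨ v = eQ q g s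

/-- the element of `G * Z` which crosses the edge `s` -/
def cr (s : G × Bool) : GZ G := inl s.1 * TT G s.2

variable {p q g}

lemma TT_true : TT G true = tt G := rfl
lemma TT_false : TT G false = (tt G)⁻¹ := rfl
lemma TT_not (ε : Bool) : TT G (!ε) = (TT G ε)⁻¹ := by
  cases ε <;> simp [TT]

lemma cr_P (s : G × Bool) : cr s • io p q g (eP p ((1 : G), !s.2)) = io p q g (eP p s) := by
  obtain ⟨h, ε⟩ := s
  rw [smul_io]
  simp only [eP, one_smul, cr]
  rw [← mk_inl]
  cases ε
  · rw [TT_false, mk_P, inv_mul_cancel_right]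
  · rw [TT_true, ← mk_P]

lemma cr_Q (s : G × Bool) : cr s • io p q g (eQ q g (1, !s.2)) = io p q g (eQ q g s) := by
  obtain ⟨h, ε⟩ := s
  rw [smul_io]
  cases ε
  · simp only [eQ, cr, Bool.not_false, if_true, one_mul, Bool.false_eq_true, if_false]
    rw [TT_false, mk_Q, inv_mul_cancel_right, mk_inl]
  · simp only [eQ, cr, Bool.not_true, if_true, one_smul, Bool.false_eq_true, if_false]
    rw [TT_true, ← mk_Q, mk_inl, mul_smul]

lemma cr_End {s : G × Bool} {v : V} (h : End p q g s v) :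
    ∃ v', End p q g (1, !s.2) v' ∧ cr s • io p q g v' = io p q g v := by
  rcases h with rfl | rfl
  · exact ⟨_, Or.inl rfl, cr_P s⟩
  · exact ⟨_, Or.inr rfl, cr_Q s⟩

lemma eQ_orb (s : G × Bool) : ∃ k : G, eQ q g s = k • q := by
  unfold eQ; split_ifs
  · exact ⟨_, rfl⟩
  · exact ⟨_, rfl⟩

section side

variable (D : SideData G)

lemma side_one : D.side 1 = none := (D.none_iff 1).2 ⟨1, by simp⟩

lemma side_cr (s : G × Bool) : D.side (cr s) = some s := D.side_T _ _

lemma len_cr {γ : GZ G} {s : G × Bool} (h : D.side γ = some s) :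
    D.len ((cr s)⁻¹ * γ) + 1 = D.len γ := D.len_step γ s.1 s.2 h

lemma len_cr_le (γ : GZ G) (s : G × Bool) : D.len ((cr s)⁻¹ * γ) ≤ D.len γ + 1 := by
  have : (cr s)⁻¹ * γ = TT G (!s.2) * (inl s.1⁻¹ * γ) := by
    rw [cr, TT_not]; simp [mul_assoc]
  rw [this]
  have h1 := D.len_T_mul (inl s.1⁻¹ * γ) (!s.2)
  rw [D.len_inl_mul] at h1
  exact h1

lemma side_back {γ : GZ G} {s : G × Bool} (h : D.side γ = some s) :
    D.side ((cr s)⁻¹ * γ) ≠ some (1, !s.2) := by
  intro h1
  have a1 := len_cr D h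
  have a2 := len_cr D h1
  have : (cr ((1 : G), !s.2))⁻¹ * ((cr s)⁻¹ * γ) = inl s.1⁻¹ * γ := by
    simp [cr, TT_not, mul_assoc]
  rw [this, D.len_inl_mul] at a2
  omega

lemma side_cases (γ : GZ G) :
    (∃ h : G, γ = inl h ∧ γ * tt G = cr (h, true)) ∨
    (∃ h : G, γ * tt G = inl h ∧ γ = cr (h, false)) ∨
    (∃ s, D.side γ = some s ∧ D.side (γ * tt G) = some s) := by
  by_cases h1 : D.side γ = none
  · obtain ⟨h, rfl⟩ := (D.none_iff γ).1 h1
    exact Or.inl ⟨h, rfl, rfl⟩
  by_cases h2 : D.side (γ * tt G) = none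
  · obtain ⟨h, hh⟩ := (D.none_iff _).1 h2
    refine Or.inr (Or.inl ⟨h, hh, ?_⟩)
    rw [cr, TT_false, ← hh, mul_inv_cancel_right]
  · obtain ⟨s, hs⟩ := Option.ne_none_iff_exists'.1 h1
    refine Or.inr (Or.inr ⟨s, hs, ?_⟩)
    rw [← hs]
    exact D.side_mul_T γ true h1 h2

lemma side_inl (h : G) : D.side (inl h) = none := (D.none_iff _).2 ⟨h, rfl⟩

/-- separation -/
lemma sep {γ γ' : GZ G} {v v' : V} {s : G × Bool} (h : mk p q g γ v = mk p q g γ' v')
    (h1 : D.side γ = some s) (h2 : D.side γ' ≠ some s) :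
    ∃ a, End p q g s a ∧ mk p q g γ v = io p q g a := by
  by_contra hn
  have := inv_of_gen (p := p) (q := q) (g := g)
    (fun γ v => D.side γ = some s ∧ ¬ ∃ a, End p q g s a ∧ mk p q g γ v = io p q g a) ?_ ?_ ?_ h
  · exact h2 (this.mp ⟨h1, hn⟩).1
  · intro γ h v
    rw [D.side_mul_inl, mk_act]
  · intro γ
    apply propext
    rw [← mk_P]
    refine and_congr_left (fun hn => ?_)
    rcases side_cases D γ with ⟨h, e1, e2⟩ | ⟨h, e1, e2⟩ | ⟨s', e1, e2⟩
    · rw [e2, side_cr, e1, side_inl]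
      refine ⟨fun h => (by cases h), fun h3 => ?_⟩
      cases h3
      exact absurd ⟨_, Or.inl rfl, by rw [e1, mk_inl]; rfl⟩ hn
    · rw [e1, side_inl]
      refine ⟨fun h3 => ?_, fun h => (by cases h)⟩
      rw [e2, side_cr] at h3
      cases h3
      exact absurd ⟨_, Or.inl rfl, by rw [mk_P, e1, mk_inl]; rfl⟩ hn
    · rw [e1, e2]
  · intro γ
    apply propext
    rw [← mk_Q]
    refine and_congr_left (fun hn => ?_)
    rcases side_cases D γ with ⟨h, e1, e2⟩ | ⟨h, e1, e2⟩ | ⟨s', e1, e2⟩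
    · rw [e2, side_cr, e1, side_inl]
      refine ⟨fun h => (by cases h), fun h3 => ?_⟩
      cases h3
      exact absurd ⟨_, Or.inr rfl, by rw [e1, mk_inl, ← mul_smul]; rfl⟩ hn
    · rw [e1, side_inl]
      refine ⟨fun h3 => ?_, fun h => (by cases h)⟩
      rw [e2, side_cr] at h3
      cases h3
      exact absurd ⟨_, Or.inr rfl, by rw [mk_Q, e1, mk_inl]; rfl⟩ hn
    · rw [e1, e2]

open Classical in
/-- the retraction on representatives -/
noncomputable def rho0 (p q : V) (g : G) (γ : GZ G) (v : V) : V :=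
  match D.side γ with
  | none => (Monoid.Coprod.fst γ : G) • v
  | some s => if ∃ k : G, v = k • p then eP p s else eQ q g s

lemma rho0_inl (h : G) (v : V) : rho0 D p q g (inl h) v = h • v := by
  unfold rho0; rw [side_inl]; simp

open Classical in
lemma rho0_some {γ : GZ G} {s : G × Bool} (h : D.side γ = some s) (v : V) :
    rho0 D p q g γ v = if ∃ k : G, v = k • p then eP p s else eQ q g s := by
  unfold rho0; rw [h]

lemma rho0_End {γ : GZ G} {s : G × Bool} (h : D.side γ = some s) (v : V) :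
    End p q g s (rho0 D p q g γ v) := by
  rw [rho0_some D h]; split_ifs
  · exact Or.inl rfl
  · exact Or.inr rfl

lemma rho0_inv (hpq : ∀ k : G, k • p ≠ q) {γ γ' : GZ G} {v v' : V}
    (h : mk p q g γ v = mk p q g γ' v') : rho0 D p q g γ v = rho0 D p q g γ' v' := by
  have n1 : ¬ ∃ k : G, q = k • p := fun ⟨k, hk⟩ => hpq k hk.symm
  have n2 : ¬ ∃ k : G, g • q = k • p := fun ⟨k, hk⟩ =>
    hpq (g⁻¹ * k) (by rw [mul_smul, ← hk, inv_smul_smul])
  have n3 : ∃ k : G, p = k • p := ⟨1, (one_smul _ _).symm⟩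
  refine inv_of_gen (p := p) (q := q) (g := g) (rho0 D p q g) ?_ ?_ ?_ h
  · intro γ h v
    rcases hs : D.side γ with _ | s
    · obtain ⟨k, rfl⟩ := (D.none_iff γ).1 hs
      rw [← map_mul, rho0_inl, rho0_inl, mul_smul]
    · rw [rho0_some D hs, rho0_some D (by rw [D.side_mul_inl]; exact hs)]
      have : (∃ k : G, v = k • p) ↔ ∃ k : G, h • v = k • p := by
        constructor
        · rintro ⟨k, rfl⟩; exact ⟨h * k, (mul_smul _ _ _).symm⟩
        · rintro ⟨k, hk⟩; exact ⟨h⁻¹ * k, by rw [mul_smul, ← hk, inv_smul_smul]⟩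
      by_cases hv : ∃ k : G, v = k • p
      · rw [if_pos hv, if_pos (this.1 hv)]
      · rw [if_neg hv, if_neg (fun h => hv (this.2 h))]
  · intro γ
    rcases side_cases D γ with ⟨h, h1, h2⟩ | ⟨h, h1, h2⟩ | ⟨s', h1, h2⟩
    · rw [h2, rho0_some D (side_cr D _), if_pos n3, h1, rho0_inl]; rfl
    · rw [h1, rho0_inl, h2, rho0_some D (side_cr D _), if_pos n3]; rfl
    · rw [rho0_some D h1, rho0_some D h2]
  · intro γ
    rcases side_cases D γ with ⟨h, h1, h2⟩ | ⟨h, h1, h2⟩ | ⟨s', h1, h2⟩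
    · rw [h2, rho0_some D (side_cr D _), if_neg n1, h1, rho0_inl, ← mul_smul]; rfl
    · rw [h1, rho0_inl, h2, rho0_some D (side_cr D _), if_neg n2]; rfl
    · rw [rho0_some D h1, rho0_some D h2, if_neg n1, if_neg n2]

include D in
lemma io_inj (hpq : ∀ k : G, k • p ≠ q) {v v' : V} (h : io p q g v = io p q g v') : v = v' := by
  have := rho0_inv D hpq h
  rw [show (1 : GZ G) = inl 1 by simp, rho0_inl, rho0_inl, one_smul, one_smul] at this
  exact this

end side

end Pool.Agent.H522Z.Glue
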