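import Pool.Agent.H522Z.Glue.A

set_option autoImplicit false
set_option linter.unusedSectionVars false
set_option linter.unusedVariables false

namespace Pool.Agent.H522Z.Glue

open Pool.Agent.H668Z.SC GS Monoid.Coprod

variable {G V : Type} [Group G] [MulAction G V]

def rel (X : GS V) (p q : V) (g : G) (y y' : W p q g) : Prop :=
  ∃ γ v v', X.d v v' = 1 ∧ y = mk p q g γ v ∧ y' = mk p q g γ v'

variable {X : GS V} {p q o : V} {g : G}

lemma rel_symm (y y' : W p q g) (h : rel X p q g y y') : rel X p q g y' y := by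
  obtain ⟨γ, v, v', h1, h2, h3⟩ := h
  exact ⟨γ, v', v, by rw [X.symm]; exact h1, h3, h2⟩

lemma rel_smul (τ : GZ G) {y y' : W p q g} (h : rel X p q g y y') :
    rel X p q g (τ • y) (τ • y') := by
  obtain ⟨γ, v, v', h1, rfl, rfl⟩ := h
  exact ⟨τ * γ, v, v', h1, rfl, rfl⟩

lemma reach_smul (τ : GZ G) {n : ℕ} {y y' : W p q g} (h : Reach (rel X p q g) n y y') :
    Reach (rel X p q g) n (τ • y) (τ • y') := by
  induction h with
  | refl n x => exact Reach.refl _ _
  | step n x z y h1 _ ih => exact Reach.step _ _ _ _ (rel_smul τ h1) ih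

lemma reach_mk (γ : GZ G) (v v' : V) :
    Reach (rel X p q g) (X.d v v') (mk p q g γ v) (mk p q g γ v') := by
  generalize hn : X.d v v' = n
  induction n generalizing v with
  | zero => rw [X.eq_of_d _ _ hn]; exact Reach.refl _ _
  | succ n ih =>
    obtain ⟨z, h1, h2⟩ := X.step v v' n hn
    exact Reach.step _ _ _ _ ⟨γ, v, z, h1, rfl, rfl⟩ (ih z h2)

lemma conn0 (D : SideData G) (n : ℕ) : ∀ (γ : GZ G), D.len γ = n → ∀ v w,
    ∃ m, Reach (rel X p q g) m (mk p q g γ v) (io p q g w) := by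
  induction n with
  | zero =>
    intro γ h v w
    obtain ⟨k, rfl⟩ := (D.none_iff γ).1 ((D.len_zero γ).1 h)
    rw [mk_inl]
    exact ⟨_, reach_mk 1 _ _⟩
  | succ n ih =>
    intro γ h v w
    have h1 : D.side γ ≠ none := fun h2 => by rw [(D.len_zero γ).2 h2] at h; omega
    obtain ⟨s, hs⟩ := Option.ne_none_iff_exists'.1 h1
    have h2 := len_cr D hs
    obtain ⟨m, hm⟩ := ih ((cr s)⁻¹ * γ) (by omega) v (eP p ((1 : G), !s.2))
    have h3 := reach_smul (cr s) hm
    rw [cr_P, smul_mk, mul_inv_cancel_left] at h3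
    exact ⟨_, h3.trans (reach_mk 1 _ w)⟩

lemma conn (X : GS V) (p q : V) (g : G) (D : SideData G) (y y' : W p q g) :
    ∃ n, Reach (rel X p q g) n y y' := by
  obtain ⟨γ, v, rfl⟩ := mk_surj y
  obtain ⟨γ', v', rfl⟩ := mk_surj y'
  obtain ⟨m, hm⟩ := conn0 (X := X) (p := p) (q := q) (g := g) D _ γ rfl v p
  obtain ⟨m', hm'⟩ := conn0 (X := X) (p := p) (q := q) (g := g) D _ γ' rfl v' p
  exact ⟨_, hm.trans (hm'.symm rel_symm)⟩

noncomputable def Y (X : GS V) (p q : V) (g : G) (D : SideData G) : GS (W p q g) :=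
  ofRel (rel X p q g) rel_symm (conn X p q g D)

variable (D : SideData G)

lemma Y_le_iff (y y' : W p q g) (n : ℕ) :
    (Y X p q g D).d y y' ≤ n ↔ Reach (rel X p q g) n y y' := ofRel_le_iff _ _ _ _ _

lemma Y_le_one (y y' : W p q g) :
    (Y X p q g D).d y y' ≤ 1 ↔ y = y' ∨ rel X p q g y y' := ofRel_le_one _ _ _ _

lemma Y_rel {y y' : W p q g} (h : (Y X p q g D).d y y' = 1) : rel X p q g y y' := by
  rcases (Y_le_one D y y').1 h.le with rfl | h1
  · rw [GS.d_self] at h; omega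
  · exact h1

lemma Y_iso : Iso (Y X p q g D) (GZ G) := by
  have : ∀ (τ : GZ G) (y y' : W p q g),
      (Y X p q g D).d (τ • y) (τ • y') ≤ (Y X p q g D).d y y' := fun τ y y' =>
    (Y_le_iff D _ _ _).2 (reach_smul τ ((Y_le_iff D _ _ _).1 le_rfl))
  intro τ y y'
  refine le_antisymm (this τ y y') ?_
  have h := this τ⁻¹ (τ • y) (τ • y')
  rwa [inv_smul_smul, inv_smul_smul] at h

structure Ctx (X : GS V) (p q o : V) (g : G) : Prop where
  cfg : Cfg G X p q o
  adj : X.d p (g • q) = 1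
  nAB : ¬ ∃ a b : G, a • p = p ∧ b • q = q ∧ g = a * b

variable (C : Ctx X p q o g)
include C

lemma d_ends (s : G × Bool) : X.d (eP p s) (eQ q g s) = 1 := by
  unfold eP eQ; split_ifs
  · rw [mul_smul, C.cfg.iso]; exact C.adj
  · rw [C.cfg.iso]; exact C.cfg.adj

lemma End.d_le {s : G × Bool} {a b : V} (ha : End p q g s a) (hb : End p q g s b) :
    X.d a b ≤ 1 := by
  have := d_ends C s
  rcases ha with rfl | rfl <;> rcases hb with rfl | rfl
  · rw [X.d_self]; omega
  · omega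
  · rw [X.symm]; omega
  · rw [X.d_self]; omega

lemma eP_ne_eQ (s s' : G × Bool) : eP p s ≠ eQ q g s' := by
  obtain ⟨k, hk⟩ := eQ_orb (q := q) (g := g) s'
  rw [hk, eP]
  intro h
  exact C.cfg.pq (k⁻¹ * s.1) (by rw [mul_smul, h, inv_smul_smul])

lemma edge_unique {s s' : G × Bool} (h1 : eP p s = eP p s') (h2 : eQ q g s = eQ q g s') :
    s = s' := by
  obtain ⟨h, ε⟩ := s
  obtain ⟨h', ε'⟩ := s'
  have a1 : (h'⁻¹ * h) • p = p := by
    rw [mul_smul]; exact inv_smul_eq_iff.2 h1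
  have a1' : (h⁻¹ * h') • p = p := by
    rw [mul_smul]; exact inv_smul_eq_iff.2 h1.symm
  have npq : p ≠ q := fun h => C.cfg.pq 1 (by rw [one_smul]; exact h)
  have npq' : p ≠ g • q := fun h => C.cfg.pq g⁻¹ (by rw [h, inv_smul_smul])
  cases ε <;> cases ε' <;> simp only [eQ, if_true, Bool.false_eq_true, if_false] at h2
  · have := C.cfg.pair (h'⁻¹ * h) p q npq a1 (by rw [mul_smul, h2, inv_smul_smul])
    rw [inv_mul_eq_one] at this
    rw [this]
  · exfalso
    refine C.nAB ⟨h'⁻¹ * h, h⁻¹ * h' * g, a1, ?_, by group⟩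
    rw [mul_assoc, mul_smul, ← h2, inv_smul_smul]
  · exfalso
    refine C.nAB ⟨h⁻¹ * h', h'⁻¹ * h * g, a1', ?_, by group⟩
    rw [mul_assoc, mul_smul, h2, inv_smul_smul]
  · have := C.cfg.pair (h'⁻¹ * h) p (g • q) npq' a1
      (by rw [mul_smul, ← mul_smul h, h2, mul_smul, inv_smul_smul])
    rw [inv_mul_eq_one] at this
    rw [this]

lemma End.unique {s s' : G × Bool} {a b : V} (hab : a ≠ b) (ha : End p q g s a)
    (hb : End p q g s b) (ha' : End p q g s' a) (hb' : End p q g s' b) : s = s' := by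
  have n1 := eP_ne_eQ C s s'
  have n2 := eP_ne_eQ C s' s
  rcases ha with ha | ha <;> rcases hb with hb | hb <;> rcases ha' with ha' | ha' <;>
    rcases hb' with hb' | hb' <;>
    first
    | exact absurd (ha.trans hb.symm) hab
    | exact absurd (ha'.trans hb'.symm) hab
    | exact edge_unique C (ha.symm.trans ha') (hb.symm.trans hb')
    | exact edge_unique C (hb.symm.trans hb') (ha.symm.trans ha')
    | exact absurd (ha.symm.trans ha') n1
    | exact absurd (ha'.symm.trans ha) n2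

noncomputable def rho (y : W p q g) : V :=
  Quot.lift (fun x : GZ G × V => rho0 D p q g x.1 x.2)
    (fun a b h => rho0_inv D C.cfg.pq (Quot.sound h : mk p q g a.1 a.2 = mk p q g b.1 b.2)) y

lemma rho_mk (γ : GZ G) (v : V) : rho D C (mk p q g γ v) = rho0 D p q g γ v := rfl

lemma rho_io (v : V) : rho D C (io p q g v) = v := by
  rw [io, rho_mk, show (1 : GZ G) = inl 1 by simp, rho0_inl, one_smul]

lemma rho_rel {y y' : W p q g} (h : rel X p q g y y') : X.d (rho D C y) (rho D C y') ≤ 1 := by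
  obtain ⟨γ, v, v', h1, rfl, rfl⟩ := h
  rw [rho_mk, rho_mk]
  rcases hs : D.side γ with _ | s
  · obtain ⟨k, rfl⟩ := (D.none_iff γ).1 hs
    rw [rho0_inl, rho0_inl, C.cfg.iso]; omega
  · exact End.d_le C (rho0_End D hs v) (rho0_End D hs v')

lemma Y_io (v v' : V) : (Y X p q g D).d (io p q g v) (io p q g v') = X.d v v' := by
  apply le_antisymm
  · exact (Y_le_iff D _ _ _).2 (reach_mk 1 v v')
  · have := GS.lip_of_adj (Y X p q g D) X (rho D C) 1 (fun a b h => rho_rel D C (Y_rel D h))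
      (io p q g v) (io p q g v')
    rwa [rho_io, rho_io, one_mul] at this

omit C in
/-- the branch through the edge `s` -/
def Br (s : G × Bool) (y : W p q g) : Prop := ∃ γ v, y = mk p q g γ v ∧ D.side γ = some s

omit C in
/-- the complement of the branch through the edge `s`, with the edge -/
def Out (s : G × Bool) (y : W p q g) : Prop := ∃ γ v, y = mk p q g γ v ∧ D.side γ ≠ some s

omit C in
lemma Br.End {s : G × Bool} {y : W p q g} (h : Br D s y) (h' : Out D s y) :
    ∃ a, End p q g s a ∧ y = io p q g a := by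
  obtain ⟨γ, v, rfl, h1⟩ := h
  obtain ⟨γ', v', h2, h3⟩ := h'
  exact sep D h2 h1 h3

omit C in
lemma out_io (s : G × Bool) (v : V) : Out D s (io p q g v) :=
  ⟨1, v, rfl, by rw [side_one]; simp⟩

omit C in
lemma Br.rel {s : G × Bool} {y y' : W p q g} (h' : ¬ Out D s y) (h : rel X p q g y y') :
    Br D s y' := by
  obtain ⟨γ, v, v', h1, rfl, rfl⟩ := h
  refine ⟨γ, v', rfl, ?_⟩
  by_contra h2
  exact h' ⟨γ, v, rfl, h2⟩

omit C in
lemma gate_btw {s : G × Bool} {y y' : W p q g} (h : Br D s y) (h' : Out D s y') :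
    ∃ a, End p q g s a ∧ (Y X p q g D).Btw y (io p q g a) y' := by
  generalize hn : (Y X p q g D).d y y' = n
  induction n generalizing y with
  | zero =>
    have := GS.eq_of_d _ _ _ hn
    subst this
    obtain ⟨a, ha, rfl⟩ := Br.End D h h'
    exact ⟨a, ha, btw_left _ _⟩
  | succ n ih =>
    by_cases ho : Out D s y
    · obtain ⟨a, ha, rfl⟩ := Br.End D h ho
      exact ⟨a, ha, btw_left _ _⟩
    obtain ⟨z, h1, h2⟩ := (Y X p q g D).step y y' n hn
    obtain ⟨a, ha, hb⟩ := ih (Br.rel D ho (Y_rel D h1)) h2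
    refine ⟨a, ha, ?_⟩
    have t1 := (Y X p q g D).tri y z (io p q g a)
    have t2 := (Y X p q g D).tri y (io p q g a) y'
    unfold GS.Btw at *
    omega

omit C in
lemma gate_av {s : G × Bool} {c y y' : W p q g} {n : ℕ} (ha : (Y X p q g D).Av c n y y')
    (h : Br D s y) (h' : Out D s y') :
    ∃ a n1 n2, End p q g s a ∧ n1 + n2 ≤ n ∧ (Y X p q g D).Av c n1 y (io p q g a) ∧
      (Y X p q g D).Av c n2 (io p q g a) y' := by
  induction ha with
  | refl n u hu =>
    obtain ⟨a, ha, rfl⟩ := Br.End D h h'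
    exact ⟨a, 0, 0, ha, by omega, Av.refl _ _ hu, Av.refl _ _ hu⟩
  | step n u z w hu hd hz ih =>
    by_cases ho : Out D s u
    · obtain ⟨a, ha, rfl⟩ := Br.End D h ho
      exact ⟨a, 0, n + 1, ha, by omega, Av.refl _ _ hu, Av.step _ _ _ _ hu hd hz⟩
    have hz' : Br D s z := by
      rcases (Y_le_one D u z).1 hd with rfl | hr
      · exact h
      · exact Br.rel D ho hr
    obtain ⟨a, n1, n2, ha, hn, h1, h2⟩ := ih hz' h'
    exact ⟨a, n1 + 1, n2, ha, by omega, Av.step _ _ _ _ hu hd h1, h2⟩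

end Pool.Agent.H522Z.Glue
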