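import Pool.Agent.H522Z.Glue.B

set_option autoImplicit false
set_option linter.unusedSectionVars false
set_option linter.unusedVariables false

namespace Pool.Agent.H522Z.Glue

open Pool.Agent.H668Z.SC GS Monoid.Coprod

variable {G V : Type} [Group G] [MulAction G V] {X : GS V} {p q o : V} {g : G}
variable (D : SideData G) (C : Ctx X p q o g)
include C

lemma av_shadow {c w : V} {y y' : W p q g} {n : ℕ}
    (ha : (Y X p q g D).Av (io p q g c) n y y') (hy : y' = io p q g w) :
    ∀ a, (y = io p q g a ∨ ∃ s, Br D s y ∧ ¬ Out D s y ∧ End p q g s a) → a ≠ c →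
      X.Av c n a w := by
  induction ha with
  | refl n u hu =>
    intro a h hac
    subst hy
    rcases h with h | ⟨s, _, h, _⟩
    · rw [io_inj D C.cfg.pq h]; exact Av.refl _ _ hac
    · exact absurd (out_io D s w) h
  | step n u z y' hu hd hz ih =>
    intro a h hac
    rcases (Y_le_one D u z).1 hd with rfl | hr
    · exact (ih hy a h hac).mono (by omega)
    obtain ⟨γ, v, v', h1, rfl, rfl⟩ := hr
    have hzc := hz.ne_left
    rcases hs : D.side γ with _ | s
    · obtain ⟨k, rfl⟩ := (D.none_iff γ).1 hs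
      rw [mk_inl] at h hzc ih
      have : a = k • v := by
        rcases h with h | ⟨s, _, h, _⟩
        · exact (io_inj D C.cfg.pq h).symm
        · exact absurd (out_io D s _) h
      subst this
      refine Av.step _ _ (k • v') _ hac (by rw [C.cfg.iso]; omega)
        (ih hy _ (Or.inl rfl) (fun h => hzc (by rw [h])))
    · have hE : End p q g s a := by
        rcases h with h | ⟨s', _, h, h2⟩
        · obtain ⟨a0, h2, h3⟩ := Br.End D (s := s) ⟨γ, v, rfl, hs⟩ (h ▸ out_io D s a)
          rw [io_inj D C.cfg.pq (h.symm.trans h3)]; exact h2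
        · have : D.side γ = some s' := by
            by_contra h3
            exact h ⟨γ, v, rfl, h3⟩
          rw [hs] at this
          cases this
          exact h2
      by_cases ho : Out D s (mk p q g γ v')
      · obtain ⟨a', h2, h3⟩ := Br.End D (s := s) ⟨γ, v', rfl, hs⟩ ho
        exact Av.step _ _ a' _ hac (End.d_le C hE h2)
          (ih hy _ (Or.inl h3) (fun h => hzc (by rw [h3, h])))
      · exact (ih hy a (Or.inr ⟨s, ⟨γ, v', rfl, hs⟩, ho, hE⟩) hac).mono (by omega)

lemma av_io {c u w : V} {n : ℕ}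
    (ha : (Y X p q g D).Av (io p q g c) n (io p q g u) (io p q g w)) : X.Av c n u w :=
  av_shadow D C ha rfl u (Or.inl rfl) (fun h => ha.ne_left (by rw [h]))

lemma gate_le (γ γ' : GZ G) (v v' : V) (h : D.side γ = none ∨ D.side γ ≠ D.side γ') :
    (Y X p q g D).d (mk p q g γ v) (io p q g (rho0 D p q g γ v)) +
      (Y X p q g D).d (io p q g (rho0 D p q g γ v)) (mk p q g γ' v') ≤
      (Y X p q g D).d (mk p q g γ v) (mk p q g γ' v') + 2 := by
  rcases hs : D.side γ with _ | s
  · obtain ⟨k, rfl⟩ := (D.none_iff γ).1 hs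
    rw [rho0_inl, mk_inl, GS.d_self]; omega
  · rw [hs] at h
    have h' : D.side γ' ≠ some s := by
      rcases h with h | h
      · cases h
      · exact h.symm
    obtain ⟨a, ha, hb⟩ := gate_btw (X := X) D (s := s) ⟨γ, v, rfl, hs⟩ ⟨γ', v', rfl, h'⟩
    have h1 := End.d_le C ha (rho0_End D hs v)
    rw [← Y_io D C] at h1
    have t1 := (Y X p q g D).tri (mk p q g γ v) (io p q g a) (io p q g (rho0 D p q g γ v))
    have t2 := (Y X p q g D).tri (io p q g (rho0 D p q g γ v)) (io p q g a) (mk p q g γ' v')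
    have t3 := (Y X p q g D).symm (io p q g (rho0 D p q g γ v)) (io p q g a)
    unfold GS.Btw at hb
    omega

lemma sep_le (γ γ' : GZ G) (v v' : V) (h : D.side γ = none ∨ D.side γ ≠ D.side γ') :
    (Y X p q g D).d (mk p q g γ v) (io p q g (rho0 D p q g γ v)) +
      X.d (rho0 D p q g γ v) (rho0 D p q g γ' v') +
      (Y X p q g D).d (mk p q g γ' v') (io p q g (rho0 D p q g γ' v')) ≤
      (Y X p q g D).d (mk p q g γ v) (mk p q g γ' v') + 4 := by
  have h1 := gate_le D C γ γ' v v' h
  have h2 := gate_le D C γ' 1 v' (rho0 D p q g γ v) (by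
    rw [side_one]; exact em _)
  change _ + (Y X p q g D).d _ (io p q g _) ≤ (Y X p q g D).d _ (io p q g _) + 2 at h2
  rw [Y_io D C, X.symm] at h2
  have t3 := (Y X p q g D).symm (io p q g (rho0 D p q g γ v)) (mk p q g γ' v')
  omega

lemma up_le (γ γ' : GZ G) (v v' : V) :
    (Y X p q g D).d (mk p q g γ v) (mk p q g γ' v') ≤
    (Y X p q g D).d (mk p q g γ v) (io p q g (rho0 D p q g γ v)) +
      X.d (rho0 D p q g γ v) (rho0 D p q g γ' v') +
      (Y X p q g D).d (mk p q g γ' v') (io p q g (rho0 D p q g γ' v')) := by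
  rw [← Y_io D C]
  have t1 := (Y X p q g D).tri (mk p q g γ v) (io p q g (rho0 D p q g γ v)) (mk p q g γ' v')
  have t2 := (Y X p q g D).tri (io p q g (rho0 D p q g γ v)) (io p q g (rho0 D p q g γ' v'))
    (mk p q g γ' v')
  have t3 := (Y X p q g D).symm (io p q g (rho0 D p q g γ' v')) (mk p q g γ' v')
  omega

lemma nonsep_le (γ γ' : GZ G) (v v' : V) (h : ¬ (D.side γ = none ∨ D.side γ ≠ D.side γ')) :
    X.d (rho0 D p q g γ v) (rho0 D p q g γ' v') ≤ 1 := by
  push Not at h
  obtain ⟨s, hs⟩ := Option.ne_none_iff_exists'.1 h.1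
  exact End.d_le C (rho0_End D hs v) (rho0_End D (h.2 ▸ hs) v')

omit C in
lemma three (γ1 γ2 γ3 γ4 : GZ G) (s : G × Bool) (h1 : D.side γ1 = some s)
    (h2 : D.side γ2 = some s) (h3 : D.side γ3 = some s) :
    D.len ((cr s)⁻¹ * γ1) + D.len ((cr s)⁻¹ * γ2) + D.len ((cr s)⁻¹ * γ3) +
      D.len ((cr s)⁻¹ * γ4) < D.len γ1 + D.len γ2 + D.len γ3 + D.len γ4 := by
  have := len_cr D h1
  have := len_cr D h2
  have := len_cr D h3
  have := len_cr_le D γ4 s
  omega

lemma Y_four {h : ℕ} (hf : X.Four h) : (Y X p q g D).Four (h + 10) := by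
  have key : ∀ n : ℕ, ∀ γ1 γ2 γ3 γ4 : GZ G, D.len γ1 + D.len γ2 + D.len γ3 + D.len γ4 = n →
      ∀ v1 v2 v3 v4 : V,
      (Y X p q g D).d (mk p q g γ1 v1) (mk p q g γ2 v2) +
        (Y X p q g D).d (mk p q g γ3 v3) (mk p q g γ4 v4) ≤
        (Y X p q g D).d (mk p q g γ1 v1) (mk p q g γ3 v3) +
        (Y X p q g D).d (mk p q g γ2 v2) (mk p q g γ4 v4) + (h + 10) ∨
      (Y X p q g D).d (mk p q g γ1 v1) (mk p q g γ2 v2) +
        (Y X p q g D).d (mk p q g γ3 v3) (mk p q g γ4 v4) ≤
        (Y X p q g D).d (mk p q g γ1 v1) (mk p q g γ4 v4) +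
        (Y X p q g D).d (mk p q g γ2 v2) (mk p q g γ3 v3) + (h + 10) := by
    intro n
    induction n using Nat.strong_induction_on with
    | _ n ih =>
    intro γ1 γ2 γ3 γ4 hn v1 v2 v3 v4
    by_cases hlt : ∃ τ : GZ G, D.len (τ * γ1) + D.len (τ * γ2) + D.len (τ * γ3) +
        D.len (τ * γ4) < n
    · obtain ⟨τ, hτ⟩ := hlt
      have := ih _ hτ (τ * γ1) (τ * γ2) (τ * γ3) (τ * γ4) rfl v1 v2 v3 v4
      simp only [← smul_mk, Y_iso D τ] at this
      exact this
    have no3 : ∀ a b c d : GZ G,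
        (∀ τ : GZ G, D.len (τ * a) + D.len (τ * b) + D.len (τ * c) + D.len (τ * d) =
          D.len (τ * γ1) + D.len (τ * γ2) + D.len (τ * γ3) + D.len (τ * γ4)) →
        ¬ (D.side a = none ∨ D.side a ≠ D.side b) → (D.side a = none ∨ D.side a ≠ D.side c) := by
      intro a b c d he hab
      by_contra hac
      push Not at hab hac
      obtain ⟨s, hs⟩ := Option.ne_none_iff_exists'.1 hab.1
      have := three D a b c d s hs (hab.2 ▸ hs) (hac.2 ▸ hs)
      have e1 := he 1
      simp only [one_mul] at e1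
      exact hlt ⟨(cr s)⁻¹, by rw [← he]; omega⟩
    have sw : ∀ a b : GZ G, (D.side a = none ∨ D.side a ≠ D.side b) →
        (D.side b = none ∨ D.side b ≠ D.side a) := by
      intro a b hab
      rcases hab with hab | hab
      · rw [hab]; exact em _
      · exact Or.inr hab.symm
    have u12 := up_le D C γ1 γ2 v1 v2
    have u34 := up_le D C γ3 γ4 v3 v4
    have hX := hf (rho0 D p q g γ1 v1) (rho0 D p q g γ2 v2) (rho0 D p q g γ3 v3)
      (rho0 D p q g γ4 v4)
    have s13 := sep_le D C γ1 γ3 v1 v3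
    have s24 := sep_le D C γ2 γ4 v2 v4
    have s14 := sep_le D C γ1 γ4 v1 v4
    have s23 := sep_le D C γ2 γ3 v2 v3
    have n13 := nonsep_le D C γ1 γ3 v1 v3
    have n24 := nonsep_le D C γ2 γ4 v2 v4
    have n14 := nonsep_le D C γ1 γ4 v1 v4
    have n23 := nonsep_le D C γ2 γ3 v2 v3
    generalize rho0 D p q g γ1 v1 = a1 at *
    generalize rho0 D p q g γ2 v2 = a2 at *
    generalize rho0 D p q g γ3 v3 = a3 at *
    generalize rho0 D p q g γ4 v4 = a4 at *
    have y12 := X.symm a1 a2
    have y13 := X.symm a1 a3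
    have y14 := X.symm a1 a4
    have y23 := X.symm a2 a3
    have y24 := X.symm a2 a4
    have y34 := X.symm a3 a4
    have t1 := X.tri a1 a3 a2
    have t2 := X.tri a1 a4 a2
    have t3 := X.tri a3 a1 a4
    have t4 := X.tri a3 a2 a4
    by_cases c13 : D.side γ1 = none ∨ D.side γ1 ≠ D.side γ3
    · by_cases c24 : D.side γ2 = none ∨ D.side γ2 ≠ D.side γ4
      · have := s13 c13
        have := s24 c24
        by_cases c14 : D.side γ1 = none ∨ D.side γ1 ≠ D.side γ4
        · by_cases c23 : D.side γ2 = none ∨ D.side γ2 ≠ D.side γ3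
          · have := s14 c14
            have := s23 c23
            omega
          · have := n23 c23
            omega
        · have := n14 c14
          omega
      · have := n24 c24
        have := s23 (no3 γ2 γ4 γ3 γ1 (fun τ => by omega) c24)
        have := s14 (sw _ _ (no3 γ4 γ2 γ1 γ3 (fun τ => by omega) (fun h => c24 (sw _ _ h))))
        omega
    · have := n13 c13
      have := s14 (no3 γ1 γ3 γ4 γ2 (fun τ => by omega) c13)
      have := s23 (sw _ _ (no3 γ3 γ1 γ2 γ4 (fun τ => by omega) (fun h => c13 (sw _ _ h))))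
      omega
  intro x y z w
  obtain ⟨γ1, v1, rfl⟩ := mk_surj x
  obtain ⟨γ2, v2, rfl⟩ := mk_surj y
  obtain ⟨γ3, v3, rfl⟩ := mk_surj z
  obtain ⟨γ4, v4, rfl⟩ := mk_surj w
  exact key _ γ1 γ2 γ3 γ4 rfl v1 v2 v3 v4

end Pool.Agent.H522Z.Glue
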