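import Pool.Agent.H522Z.Glue.C

set_option autoImplicit false
set_option linter.unusedSectionVars false
set_option linter.unusedVariables false

namespace Pool.Agent.H522Z.Glue

open Pool.Agent.H668Z.SC GS Monoid.Coprod

variable {G V : Type} [Group G] [MulAction G V] {X : GS V} {p q o : V} {g : G}
variable (D : SideData G) (C : Ctx X p q o g)
include C

lemma End_of_fix {γ : GZ G} {s : G × Bool} (hs : D.side γ = some s) {v a : V}
    (h : mk p q g γ v = io p q g a) : End p q g s a := by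
  obtain ⟨a0, h2, h3⟩ := Br.End D (s := s) ⟨γ, v, rfl, hs⟩ (h ▸ out_io D s a)
  rw [io_inj D C.cfg.pq (h.symm.trans h3)]; exact h2

lemma fine_step (n : ℕ)
    (ih : ∀ c u, (Y X p q g D).d c u = 1 →
      {w | (Y X p q g D).d c w = 1 ∧ (Y X p q g D).Av c n u w}.Finite)
    (c u : V) (h : X.d c u = 1) :
    {w | ((Y X p q g D).d (io p q g c) w = 1 ∧ (Y X p q g D).Av (io p q g c) (n + 1)
      (io p q g u) w) ∧ ¬ ∃ s, Br D s w ∧ ¬ Out D s w ∧ End p q g s c ∧ End p q g s u}.Finite := by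
  have hT := C.cfg.fine c u (n + 1) h
  refine ((hT.image (io p q g)).union (hT.biUnion (t := fun b => {w | (Y X p q g D).d
    (io p q g c) w = 1 ∧ (Y X p q g D).Av (io p q g c) n (io p q g b) w})
    (fun b hb => ih _ _ (by rw [Y_io D C]; exact hb.1)))).subset ?_
  rintro w ⟨⟨h1, h2⟩, h3⟩
  by_cases hw : ∃ a, w = io p q g a
  · obtain ⟨a, rfl⟩ := hw
    exact Or.inl ⟨a, ⟨by rw [← Y_io D C]; exact h1, av_io D C h2⟩, rfl⟩
  right
  obtain ⟨γ, v, v', h4, h5, rfl⟩ := Y_rel D h1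
  rcases hs : D.side γ with _ | s
  · obtain ⟨k, rfl⟩ := (D.none_iff γ).1 hs
    exact absurd ⟨_, mk_inl k v'⟩ hw
  have hB : Br D s (mk p q g γ v') := ⟨γ, v', rfl, hs⟩
  have hO : ¬ Out D s (mk p q g γ v') := fun ho => by
    obtain ⟨a, _, ha⟩ := Br.End D hB ho
    exact hw ⟨a, ha⟩
  have hc : End p q g s c := End_of_fix D C hs h5.symm
  obtain ⟨a, n1, n2, ha, hn, h6, h7⟩ := gate_av D h2.symm hB (out_io D s u)
  have hac : a ≠ c := fun e => h7.ne_left (by rw [e])
  have hau : a ≠ u := fun e => h3 ⟨s, hB, hO, hc, e ▸ ha⟩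
  have h8 := h7.d_le
  rw [Y_io D C] at h8
  have h9 := d_pos (X := X) hau
  have h10 := d_pos (X := X) hac.symm
  have h11 := End.d_le C hc ha
  simp only [Set.mem_iUnion]
  exact ⟨a, ⟨by omega, (av_io D C h7.symm).mono (by omega)⟩, h1, h6.symm.mono (by omega)⟩

lemma Y_fine : (Y X p q g D).Fine := by
  intro c u n
  induction n generalizing c u with
  | zero =>
    intro h
    refine (Set.finite_singleton u).subset ?_
    rintro w ⟨_, h2⟩
    have := h2.d_le
    exact ((Y X p q g D).eq_of_d u w (by omega)).symm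
  | succ n ih =>
    intro h
    obtain ⟨γ, c, u, h1, rfl, rfl⟩ := Y_rel D h
    have hcu : c ≠ u := fun e => by rw [e, X.d_self] at h1; omega
    have key : {w | (Y X p q g D).d (io p q g c) w = 1 ∧
        (Y X p q g D).Av (io p q g c) (n + 1) (io p q g u) w}.Finite := by
      have f1 := fine_step D C n ih c u h1
      by_cases hs : ∃ s, End p q g s c ∧ End p q g s u
      · obtain ⟨s, hc, hu⟩ := hs
        obtain ⟨c1, hc1, hc2⟩ := cr_End hc
        obtain ⟨u1, hu1, hu2⟩ := cr_End hu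
        have h2 : X.d c1 u1 = 1 := by
          rw [← Y_io D C, ← Y_iso D (cr s), hc2, hu2, Y_io D C, h1]
        have hcu1 : c1 ≠ u1 := fun e => by rw [e, X.d_self] at h2; omega
        have f2 := fine_step D C n ih c1 u1 h2
        refine (f1.union (f2.image (fun w => cr s • w))).subset ?_
        intro w hw
        by_cases h3 : ∃ s, Br D s w ∧ ¬ Out D s w ∧ End p q g s c ∧ End p q g s u
        · right
          obtain ⟨s', ⟨γ', v', rfl, h4⟩, h5, h6, h7⟩ := h3
          have := End.unique C hcu h6 h7 hc hu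
          subst this
          refine ⟨(cr s')⁻¹ • mk p q g γ' v', ⟨⟨?_, ?_⟩, ?_⟩, smul_inv_smul _ _⟩
          · rw [← Y_iso D (cr s'), hc2, smul_inv_smul]; exact hw.1
          · have := (Y_iso D).av (cr s')⁻¹ hw.2
            rwa [← hc2, ← hu2, inv_smul_smul, inv_smul_smul] at this
          · rintro ⟨s2, _, h8, h9, h10⟩
            have := End.unique C hcu1 h9 h10 hc1 hu1
            subst this
            exact h8 ⟨_, v', smul_mk _ _ _, side_back D h4⟩
        · exact Or.inl ⟨hw, h3⟩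
      · refine f1.subset (fun w hw => ⟨hw, ?_⟩)
        rintro ⟨s, _, _, h3, h4⟩
        exact hs ⟨s, h3, h4⟩
    refine (key.image (fun w => γ • w)).subset ?_
    rintro w ⟨h2, h3⟩
    refine ⟨γ⁻¹ • w, ⟨?_, ?_⟩, smul_inv_smul _ _⟩
    · rw [← Y_iso D γ, smul_inv_smul, smul_io]; exact h2
    · have := (Y_iso D).av γ⁻¹ h3
      rwa [← smul_io, ← smul_io, inv_smul_smul, inv_smul_smul] at this

include D in
lemma pair0 (γ : GZ G) (a b : V) (hab : a ≠ b) (ha : γ • io p q g a = io p q g a)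
    (hb : γ • io p q g b = io p q g b) : γ = 1 := by
  rcases hs : D.side γ with _ | s
  · obtain ⟨k, rfl⟩ := (D.none_iff γ).1 hs
    rw [← io_smul] at ha hb
    rw [C.cfg.pair k a b hab (io_inj D C.cfg.pq ha) (io_inj D C.cfg.pq hb), map_one]
  exfalso
  have ea : End p q g s a := End_of_fix D C hs (by rw [← smul_io]; exact ha)
  have eb : End p q g s b := End_of_fix D C hs (by rw [← smul_io]; exact hb)
  obtain ⟨a1, ha1, ha2⟩ := cr_End ea
  obtain ⟨b1, hb1, hb2⟩ := cr_End eb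
  have ha3 : mk p q g ((cr s)⁻¹ * γ) a = io p q g a1 := by
    rw [← smul_io, mul_smul, ha, ← ha2, inv_smul_smul]
  have hb3 : mk p q g ((cr s)⁻¹ * γ) b = io p q g b1 := by
    rw [← smul_io, mul_smul, hb, ← hb2, inv_smul_smul]
  have hab1 : a1 ≠ b1 := fun e => hab (io_inj D C.cfg.pq (g := g) (by rw [← ha2, ← hb2, e]))
  rcases hs2 : D.side ((cr s)⁻¹ * γ) with _ | s2
  · obtain ⟨k, hk⟩ := (D.none_iff _).1 hs2
    rw [hk, mk_inl] at ha3 hb3
    have ha4 := io_inj D C.cfg.pq ha3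
    have hb4 := io_inj D C.cfg.pq hb3
    have tr : ∀ v, End p q g s v → End p q g (k * s.1, s.2) (k • v) := by
      intro v hv
      rcases hv with rfl | rfl
      · left; simp only [eP, mul_smul]
      · right; unfold eQ; split_ifs <;> simp only [mul_smul]
    have := End.unique C hab1 (ha4 ▸ tr a ea) (hb4 ▸ tr b eb) ha1 hb1
    have h2 := congrArg Prod.snd this
    cases s.2 <;> simp at h2
  · have := End.unique C hab1 (End_of_fix D C hs2 ha3) (End_of_fix D C hs2 hb3) ha1 hb1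
    exact side_back D hs (this ▸ hs2)

lemma pair1 (n : ℕ) : ∀ (γ γ' : GZ G) (a v : V), D.len γ' = n → io p q g a ≠ mk p q g γ' v →
    γ • io p q g a = io p q g a → γ • mk p q g γ' v = mk p q g γ' v → γ = 1 := by
  induction n with
  | zero =>
    intro γ γ' a v hn hne ha hb
    obtain ⟨k, rfl⟩ := (D.none_iff γ').1 ((D.len_zero γ').1 hn)
    rw [mk_inl] at hne hb
    exact pair0 D C γ a _ (fun e => hne (by rw [e])) ha hb
  | succ n ih =>
    intro γ γ' a v hn hne ha hb
    have h1 : D.side γ' ≠ none := fun h2 => by rw [(D.len_zero γ').2 h2] at hn; omega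
    obtain ⟨s, hs⟩ := Option.ne_none_iff_exists'.1 h1
    by_cases ea : End p q g s a
    · obtain ⟨a1, ha1, ha2⟩ := cr_End ea
      have h2 := len_cr D hs
      have := ih ((cr s)⁻¹ * γ * cr s) ((cr s)⁻¹ * γ') a1 v (by omega) ?_ ?_ ?_
      · rw [mul_assoc, inv_mul_eq_one, eq_comm, mul_eq_right] at this
        exact this
      · intro e
        apply hne
        rw [← ha2, e, smul_mk, mul_inv_cancel_left]
      · rw [mul_smul, mul_smul, ha2, ha, ← ha2, inv_smul_smul]
      · rw [← smul_mk, mul_smul, mul_smul, smul_inv_smul, hb]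
    by_cases ho : Out D s (mk p q g γ' v)
    · obtain ⟨b, _, hb2⟩ := Br.End D (s := s) ⟨γ', v, rfl, hs⟩ ho
      rw [hb2] at hne hb
      exact pair0 D C γ a b (fun e => hne (by rw [e])) ha hb
    have hall : ∀ τ : GZ G, τ • mk p q g γ' v = mk p q g γ' v → D.side (τ * γ') = some s := by
      intro τ hτ
      by_contra h3
      exact ho ⟨τ * γ', v, by rw [← smul_mk, hτ], h3⟩
    rcases hs1 : D.side γ with _ | s1
    · obtain ⟨k, rfl⟩ := (D.none_iff γ).1 hs1
      have := hall _ hb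
      rw [D.side_inl_mul, hs] at this
      simp only [Option.map_some, Option.some.injEq] at this
      have h2 := congrArg Prod.fst this
      simp only [mul_eq_right] at h2
      rw [h2, map_one]
    exfalso
    have e1 : End p q g s1 a := End_of_fix D C hs1 (by rw [← smul_io]; exact ha)
    have h2 := D.through γ γ' (by rw [hs1]; simp) (by
      rw [hs1, hs]; intro e; cases e; exact ea e1)
    rw [hall γ⁻¹ (inv_smul_eq_iff.2 hb.symm)] at h2
    exact ea (End_of_fix D C h2.symm (by rw [← smul_io]; exact inv_smul_eq_iff.2 ha.symm))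

include D in
lemma Y_pair (γ : GZ G) (y y' : W p q g) (hne : y ≠ y') (h1 : γ • y = y) (h2 : γ • y' = y') :
    γ = 1 := by
  obtain ⟨τ, a, rfl⟩ := mk_surj y
  obtain ⟨γ', v, rfl⟩ := mk_surj y'
  have := pair1 D C _ (τ⁻¹ * γ * τ) (τ⁻¹ * γ') a v rfl ?_ ?_ ?_
  · rw [mul_assoc, inv_mul_eq_one, eq_comm, mul_eq_right] at this
    exact this
  · intro e
    apply hne
    rw [← smul_io, e, smul_mk, mul_inv_cancel_left]
  · rw [mul_smul, mul_smul, smul_io τ, h1, ← smul_io, inv_smul_smul]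
  · rw [← smul_mk, mul_smul, mul_smul, smul_inv_smul, h2]

omit C in
lemma Y_ind (r : V) (hr : ∀ k : G, X.d r (k • r) ≠ 1) (hi : Iso X G) (γ : GZ G) :
    (Y X p q g D).d (io p q g r) (γ • io p q g r) ≠ 1 := by
  intro h
  obtain ⟨γ', v, v', h1, h2, h3⟩ := Y_rel D h
  obtain ⟨k, rfl⟩ := orb h2
  rw [smul_io] at h3
  obtain ⟨k', rfl⟩ := orb h3
  refine hr (k⁻¹ * k') ?_
  rw [mul_smul, ← hi k, smul_inv_smul]; exact h1

omit C in
lemma Y_ne (r r' : V) (hr : ∀ k : G, k • r ≠ r') (γ : GZ G) :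
    γ • io p q g r ≠ io p q g r' := by
  intro h
  rw [smul_io] at h
  obtain ⟨k, hk⟩ := orb h
  exact hr k hk.symm

lemma Y_cfg : Cfg (GZ G) (Y X p q g D) (io p q g p) (io p q g q) (io p q g o) where
  iso := Y_iso D
  hyp := by
    obtain ⟨δ, hδ⟩ := C.cfg.hyp
    exact ⟨_, (Y_four D C hδ.four).slim⟩
  fine := Y_fine D C
  cof := by
    obtain ⟨S, hS, h⟩ := C.cfg.cof
    refine ⟨_, hS.image (fun x => (io p q g x.1, io p q g x.2)), ?_⟩
    intro a b hab
    obtain ⟨γ, v, v', h1, rfl, rfl⟩ := Y_rel D hab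
    obtain ⟨k, hk⟩ := h v v' h1
    refine ⟨inl k * γ⁻¹, _, hk, ?_⟩
    simp only [smul_mk, inv_mul_cancel_right, mk_inl]
  pair := Y_pair D C
  adj := by rw [Y_io D C]; exact C.cfg.adj
  indP := Y_ind D p C.cfg.indP C.cfg.iso
  indQ := Y_ind D q C.cfg.indQ C.cfg.iso
  pq := Y_ne p q C.cfg.pq
  po := Y_ne p o C.cfg.po
  qo := Y_ne q o C.cfg.qo

omit C in
lemma stab_gen (r : V) (H : Subgroup (GZ G)) (h1 : ∀ k : G, k • r = r → inl k ∈ H)
    (h2 : ∀ γ, (∃ k : G, p = k • r ∧ γ * inl k ∈ H) ↔ ∃ k : G, p = k • r ∧ γ * tt G * inl k ∈ H)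
    (h3 : ∀ γ, (∃ k : G, g • q = k • r ∧ γ * inl k ∈ H) ↔
      ∃ k : G, q = k • r ∧ γ * tt G * inl k ∈ H)
    (γ : GZ G) (h : γ • io p q g r = io p q g r) : γ ∈ H := by
  rw [smul_io] at h
  have := inv_of_gen (p := p) (q := q) (g := g)
    (fun γ v => ∃ k : G, v = k • r ∧ γ * inl k ∈ H) ?_ (fun γ => propext (h2 γ))
    (fun γ => propext (h3 γ)) h
  · obtain ⟨k, hk, hk2⟩ := this.mpr ⟨1, (one_smul _ _).symm, by simp⟩
    exact (H.mul_mem_cancel_right (h1 k hk.symm)).1 hk2
  · intro γ h v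
    apply propext
    constructor
    · rintro ⟨k, rfl, hk⟩
      exact ⟨h * k, (mul_smul _ _ _).symm, by rwa [map_mul, ← mul_assoc]⟩
    · rintro ⟨k, hk, hk2⟩
      refine ⟨h⁻¹ * k, by rw [mul_smul, ← hk, inv_smul_smul], ?_⟩
      rwa [mul_assoc, ← map_mul, mul_inv_cancel_left]

lemma stab_P (γ : GZ G) : γ • io p q g p = io p q g p ↔ γ ∈ Subgroup.closure
      ({x | ∃ a : G, a • p = p ∧ x = Monoid.Coprod.inl a} ∪ {tt G}) := by
  constructor
  · set H := Subgroup.closure
      ({x | ∃ a : G, a • p = p ∧ x = (Monoid.Coprod.inl a : GZ G)} ∪ {tt G})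
    have h1 : ∀ k : G, k • p = p → inl k ∈ H := fun k hk =>
      Subgroup.subset_closure (Or.inl ⟨k, hk, rfl⟩)
    have ht : tt G ∈ H := Subgroup.subset_closure (Or.inr rfl)
    refine stab_gen p H h1 (fun γ => ?_) (fun γ => ?_) γ
    · refine exists_congr (fun k => and_congr_right (fun hk => ?_))
      rw [H.mul_mem_cancel_right (h1 k hk.symm), H.mul_mem_cancel_right (h1 k hk.symm),
        H.mul_mem_cancel_right ht]
    · constructor
      · rintro ⟨k, hk, _⟩
        exact absurd (by rw [mul_smul, ← hk, inv_smul_smul]) (C.cfg.pq (g⁻¹ * k))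
      · rintro ⟨k, hk, _⟩
        exact absurd hk.symm (C.cfg.pq k)
  · intro h
    have : Subgroup.closure ({x | ∃ a : G, a • p = p ∧ x = (Monoid.Coprod.inl a : GZ G)} ∪
        {tt G}) ≤ MulAction.stabilizer (GZ G) (io p q g p) := by
      rw [Subgroup.closure_le]
      rintro x (⟨a, ha, rfl⟩ | rfl)
      · show _ • _ = _
        rw [← io_smul, ha]
      · show _ • _ = _
        rw [smul_io, io, mk_P 1, one_mul]
    exact this h

lemma stab_Q (γ : GZ G) : γ • io p q g q = io p q g q ↔ γ ∈ Subgroup.closure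
      ({x | ∃ b : G, b • q = q ∧ x = Monoid.Coprod.inl b} ∪
        {(tt G)⁻¹ * Monoid.Coprod.inl g}) := by
  constructor
  · set H := Subgroup.closure
      ({x | ∃ b : G, b • q = q ∧ x = (Monoid.Coprod.inl b : GZ G)} ∪
        {(tt G)⁻¹ * Monoid.Coprod.inl g})
    have h1 : ∀ k : G, k • q = q → inl k ∈ H := fun k hk =>
      Subgroup.subset_closure (Or.inl ⟨k, hk, rfl⟩)
    have ht : (tt G)⁻¹ * inl g ∈ H := Subgroup.subset_closure (Or.inr rfl)
    refine stab_gen q H h1 (fun γ => ?_) (fun γ => ?_) γ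
    · constructor
      · rintro ⟨k, hk, _⟩
        exact absurd (by rw [hk, inv_smul_smul]) (C.cfg.pq k⁻¹)
      · rintro ⟨k, hk, _⟩
        exact absurd (by rw [hk, inv_smul_smul]) (C.cfg.pq k⁻¹)
    · constructor
      · rintro ⟨k, hk, hk2⟩
        refine ⟨1, (one_smul _ _).symm, ?_⟩
        have h2 := h1 (g⁻¹ * k) (by rw [mul_smul, ← hk, inv_smul_smul])
        have h3 := H.mul_mem (H.mul_mem hk2 (H.inv_mem h2)) (H.inv_mem ht)
        simpa [mul_assoc] using h3
      · rintro ⟨k, hk, hk2⟩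
        refine ⟨g, rfl, ?_⟩
        have h3 := H.mul_mem (H.mul_mem hk2 (H.inv_mem (h1 k hk.symm))) ht
        simpa [mul_assoc] using h3
  · intro h
    have : Subgroup.closure ({x | ∃ b : G, b • q = q ∧ x = (Monoid.Coprod.inl b : GZ G)} ∪
        {(tt G)⁻¹ * Monoid.Coprod.inl g}) ≤ MulAction.stabilizer (GZ G) (io p q g q) := by
      rw [Subgroup.closure_le]
      rintro x (⟨a, ha, rfl⟩ | rfl)
      · show _ • _ = _
        rw [← io_smul, ha]
      · show _ • _ = _
        rw [mul_smul, ← io_smul, inv_smul_eq_iff, smul_io, io, mk_Q 1, one_mul]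
    exact this h

omit C in
theorem thm_glue (hs : S_side) : S_glue := by
  intro G V _ _ X p q o hc g h1 h2
  obtain ⟨D⟩ := hs G
  have C : Ctx X p q o g := ⟨hc, h1, h2⟩
  exact ⟨W p q g, inferInstance, Y X p q g D, io p q g, Y_cfg D C, io_smul, stab_P C, stab_Q C⟩

end Pool.Agent.H522Z.Glue
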